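import Pool.Agent.Run7.h117.JM.Fin

/-!
An upper bound for the maximum number `J_n(L)` of `n`-dimensional joints of `L` lines in a simple
matroid: for all `n ≥ 4` and all `L` one has
`J_n(L) ≤ 128 n ^ 2 * L ^ (3 / 2 + 1 / (2 ^ (n - 1) - 2))`.
(The exponent is `5 / 3` for `n = 4`, `11 / 7` for `n = 5`, `23 / 15` for `n = 6`, `47 / 31` for
`n = 7`; it differs from `3 / 2` by less than `2 / 2 ^ (n - 1)`. The exponent in the earlier
bound was `3 / 2 + 1 / (4 n - 10)`.)
-/

set_option autoImplicit false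

namespace Pool.Agent.Results.MP_66cbdd_co.ExponentiallySmallGap

/-- `M` is simple: it has no loops and no parallel pairs. -/
def IsSimple {α : Type} (M : Matroid α) : Prop := ∀ e ∈ M.E, ∀ f ∈ M.E, M.Indep {e, f}

/-- A line of `M` is a flat of rank two. -/
def IsLine {α : Type} (M : Matroid α) (l : Set α) : Prop := M.IsFlat l ∧ M.eRk l = 2

/-- `x` is an `n`-dimensional joint of the set `S` of lines: there are `n` lines of `S`
through `x` whose union has rank at least `n + 1`. -/
def IsJoint {α : Type} (M : Matroid α) (n : ℕ) (S : Set (Set α)) (x : α) : Prop :=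
  ∃ l : Fin n → Set α, (∀ i, l i ∈ S) ∧ (∀ i, x ∈ l i) ∧ ((n : ℕ∞) + 1 ≤ M.eRk (⋃ i, l i))

/-- The numbers of `n`-dimensional joints of all sets of exactly `L` lines in finite simple
matroids. -/
def jointCounts (n L : ℕ) : Set ℕ :=
  {k | ∃ (α : Type) (M : Matroid α) (S : Finset (Set α)), M.Finite ∧ IsSimple M ∧
    (∀ l ∈ S, IsLine M l) ∧ S.card = L ∧ {x | IsJoint M n (S : Set (Set α)) x}.ncard = k}

/-- `J_n(L)`, the maximum number of `n`-dimensional joints of `L` lines in a simple matroid. -/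
noncomputable def maxJoints (n L : ℕ) : ℕ := sSup (jointCounts n L)

/-- the constant of the bound -/
noncomputable def C (n : ℕ) : ℝ := 128 * (n : ℝ) ^ 2

theorem bound {n L k : ℕ} (hn : 4 ≤ n) (hk : k ∈ jointCounts n L) :
    (k : ℝ) ≤ C n * (L : ℝ) ^ ((3 : ℝ) / 2 + 1 / (2 ^ (n - 1) - 2)) := by
  obtain ⟨α, M, S, hfin, hs, hS, rfl, rfl⟩ := hk
  have hsub : {x | IsJoint M n (S : Set (Set α)) x} ⊆ M.E := by
    rintro x ⟨l, h1, h2, _⟩
    exact (hS _ (by simpa using h1 ⟨0, by omega⟩)).1.subset_ground (h2 _)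
  have hf : {x | IsJoint M n (S : Set (Set α)) x}.Finite := M.ground_finite.subset hsub
  rw [Set.ncard_eq_toFinset_card _ hf]
  exact Run7.h117.JM.joints_bound (M := M) hs hn hS _
    (fun x hx => (hf.mem_toFinset.1 hx))

theorem nonempty_counts (n L : ℕ) : (jointCounts n L).Nonempty := by
  classical
  let M : Matroid ℕ := Matroid.freeOn (Set.Iic L)
  have hline : ∀ i ∈ Finset.Icc 1 L, IsLine M ({0, i} : Set ℕ) := by
    intro i hi
    have hi' := Finset.mem_Icc.1 hi
    have hsub : ({0, i} : Set ℕ) ⊆ Set.Iic L := by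
      rintro z (rfl | rfl)
      · simp
      · simpa using hi'.2
    have hind : M.Indep ({0, i} : Set ℕ) := Matroid.freeOn_indep hsub
    refine ⟨?_, ?_⟩
    · rw [Matroid.isFlat_iff_closure_eq]
      apply Set.Subset.antisymm
      · intro z hz
        by_contra hne
        have hzE : z ∈ M.E := M.closure_subset_ground _ hz
        have h2 : M.Indep (insert z ({0, i} : Set ℕ)) :=
          Matroid.freeOn_indep (Set.insert_subset hzE hsub)
        exact (hind.notMem_closure_iff_of_notMem hne hzE).2 h2 hz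
      · exact M.subset_closure _ hsub
    · rw [hind.eRk_eq_encard, Set.encard_pair (by omega)]
  refine ⟨_, ℕ, M, (Finset.Icc 1 L).image (fun i => ({0, i} : Set ℕ)), ⟨Set.finite_Iic L⟩, ?_, ?_,
    ?_, rfl⟩
  · intro e he f hf
    apply Matroid.freeOn_indep
    rintro z (rfl | rfl)
    · exact he
    · exact hf
  · intro l hl
    obtain ⟨i, hi, rfl⟩ := Finset.mem_image.1 hl
    exact hline i hi
  · rw [Finset.card_image_of_injOn, Nat.card_Icc, Nat.add_sub_cancel]
    intro i hi j hj hij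
    have hi' := Finset.mem_Icc.1 (Finset.mem_coe.1 hi)
    have h1 : i ∈ ({0, j} : Set ℕ) := by
      have : ({0, i} : Set ℕ) = {0, j} := hij
      rw [← this]
      simp
    rcases h1 with h1 | h1
    · omega
    · exact h1

/-- For all `n ≥ 4` and all `L`: `J_n(L)` is a maximum that is attained, and
`J_n(L) ≤ 128 n ^ 2 L ^ (3 / 2 + 1 / (2 ^ (n - 1) - 2))`. -/
theorem result (n : ℕ) (hn : 4 ≤ n) (L : ℕ) :
    IsGreatest (jointCounts n L) (maxJoints n L) ∧
    (maxJoints n L : ℝ) ≤ 128 * (n : ℝ) ^ 2 * (L : ℝ) ^ ((3 : ℝ) / 2 + 1 / (2 ^ (n - 1) - 2)) := by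
  have hb : BddAbove (jointCounts n L) := by
    refine ⟨⌊C n * (L : ℝ) ^ ((3 : ℝ) / 2 + 1 / (2 ^ (n - 1) - 2))⌋₊, fun k hk => ?_⟩
    exact Nat.le_floor (bound hn hk)
  have hmem : maxJoints n L ∈ jointCounts n L := Nat.sSup_mem (nonempty_counts n L) hb
  exact ⟨⟨hmem, fun k hk => le_csSup hb hk⟩, bound hn hmem⟩

end Pool.Agent.Results.MP_66cbdd_co.ExponentiallySmallGap
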